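import Mathlib

/-! Black pebbling (with sliding): an exact amplification by blow-ups, and the resulting
reduction from exact computation of the pebbling number to approximation within an additive
`n^(1-ε)`. -/

namespace Pool.Agent.Results.MP_ecb870_lc.AdditiveBlowup

variable {V : Type*} [DecidableEq V]

/-- One move of the standard black pebble game with sliding on the digraph `E`
(`E u v` means that there is an edge from `u` to `v`). Configurations are the finite sets of
pebbled vertices. -/
inductive Move (E : V → V → Prop) : Finset V → Finset V → Prop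
  | place (C : Finset V) (v : V) (h : ∀ u, E u v → u ∈ C) : Move E C (insert v C)
  | remove (C : Finset V) (v : V) : Move E C (C.erase v)
  | slide (C : Finset V) (u v : V) (huv : E u v) (h : ∀ x, E x v → x ∈ C) :
      Move E C (insert v (C.erase u))

/-- `CanPebble E t k`: some pebbling, starting from the empty configuration and never using more
than `k` pebbles, reaches a configuration in which `t` carries a pebble. -/
def CanPebble (E : V → V → Prop) (t : V) (k : ℕ) : Prop :=
  ∃ C, Relation.ReflTransGen (fun C D => Move E C D ∧ D.card ≤ k) ∅ C ∧ t ∈ C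

/-- The black pebbling number of the digraph `E` with target `t`. -/
noncomputable def Peb (E : V → V → Prop) (t : V) : ℕ := sInf {k | CanPebble E t k}

/-- The blow-up: every vertex `v` is replaced by `w` copies `(v, i)`, every edge `u → v` by all
the edges `(u, i) → (v, j)`, and one new vertex `none` is added, with an edge from every copy
of `t` to it. -/
def Blow (E : V → V → Prop) (t : V) (w : ℕ) :
    Option (V × Fin w) → Option (V × Fin w) → Prop
  | some a, some b => E a.1 b.1
  | some a, none => a.1 = t
  | none, _ => False

/-! ### The game without sliding -/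

inductive NMove (E : V → V → Prop) : Finset V → Finset V → Prop
  | place (C : Finset V) (v : V) (h : ∀ u, E u v → u ∈ C) : NMove E C (insert v C)
  | remove (C : Finset V) (v : V) : NMove E C (C.erase v)

def Reach (E : V → V → Prop) (k : ℕ) (C D : Finset V) : Prop :=
  Relation.ReflTransGen (fun C D => Move E C D ∧ D.card ≤ k) C D

def NReach (E : V → V → Prop) (k : ℕ) (C D : Finset V) : Prop :=
  Relation.ReflTransGen (fun C D => NMove E C D ∧ D.card ≤ k) C D

def NCan (E : V → V → Prop) (t : V) (k : ℕ) : Prop := ∃ C, NReach E k ∅ C ∧ t ∈ C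

theorem NReach.card_le {E : V → V → Prop} {k : ℕ} {C : Finset V} (h : NReach E k ∅ C) :
    C.card ≤ k := by
  cases h with
  | refl => simp
  | tail _ h => exact h.2

theorem Reach.card_le {E : V → V → Prop} {k : ℕ} {C : Finset V} (h : Reach E k ∅ C) :
    C.card ≤ k := by
  cases h with
  | refl => simp
  | tail _ h => exact h.2

theorem NReach.mono {E : V → V → Prop} {k l : ℕ} (hkl : k ≤ l) {C D : Finset V}
    (h : NReach E k C D) : NReach E l C D :=
  Relation.ReflTransGen.mono (fun _ _ h => ⟨h.1, h.2.trans hkl⟩) _ _ h

theorem CanPebble.mono {E : V → V → Prop} {t : V} {k l : ℕ} (hkl : k ≤ l)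
    (h : CanPebble E t k) : CanPebble E t l := by
  obtain ⟨C, hC, ht⟩ := h
  exact ⟨C, Relation.ReflTransGen.mono (fun _ _ h => ⟨h.1, h.2.trans hkl⟩) _ _ hC, ht⟩

/-- Without sliding one more pebble suffices. -/
theorem nreach_of_reach {E : V → V → Prop} {k : ℕ} {C : Finset V} (h : Reach E k ∅ C) :
    NReach E (k + 1) ∅ C := by
  induction h with
  | refl => exact Relation.ReflTransGen.refl
  | @tail B D hB hBD ih =>
    obtain ⟨hm, hc⟩ := hBD
    have hBk : B.card ≤ k := Reach.card_le hB
    cases hm with
    | place v h => exact ih.tail ⟨NMove.place _ v h, by omega⟩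
    | remove v => exact ih.tail ⟨NMove.remove _ v, by omega⟩
    | slide u v huv h =>
      by_cases huv' : u = v
      · subst huv'
        have hu : u ∈ B := h u huv
        have : insert u (B.erase u) = B := Finset.insert_erase hu
        rw [this]; exact ih
      · have h1 : NReach E (k + 1) ∅ (insert v B) :=
          ih.tail ⟨NMove.place _ v h, (Finset.card_insert_le _ _).trans (by omega)⟩
        have h2 : insert v (B.erase u) = (insert v B).erase u := by
          rw [Finset.erase_insert_of_ne (fun h => huv' h.symm)]
        rw [h2]
        refine h1.tail ⟨NMove.remove _ u, ?_⟩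
        rw [← h2]; omega

/-- Sliding saves a pebble (invariant). -/
theorem slide_inv {E : V → V → Prop} {k : ℕ} {C : Finset V} (h : NReach E (k + 1) ∅ C) :
    (C.card ≤ k → Reach E k ∅ C) ∧
    (C.card = k + 1 → ∃ v C', v ∉ C' ∧ C = insert v C' ∧ (∀ u, E u v → u ∈ C') ∧
      Reach E k ∅ C') := by
  induction h with
  | refl => exact ⟨fun _ => Relation.ReflTransGen.refl, fun h => by simp at h⟩
  | @tail B D hB hBD ih =>
    obtain ⟨hm, hc⟩ := hBD
    cases hm with
    | place v h =>
      by_cases hv : v ∈ B
      · rw [Finset.insert_eq_of_mem hv]; exact ih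
      · rw [Finset.card_insert_of_notMem hv] at hc
        have hBk : B.card ≤ k := by omega
        refine ⟨fun hD => ?_, fun hD => ?_⟩
        · exact (ih.1 hBk).tail ⟨Move.place _ v h, hD⟩
        · exact ⟨v, B, hv, rfl, h, ih.1 hBk⟩
    | remove x =>
      by_cases hx : x ∈ B
      · have hcard : (B.erase x).card = B.card - 1 := Finset.card_erase_of_mem hx
        have hBpos : 0 < B.card := Finset.card_pos.2 ⟨x, hx⟩
        have hBle : B.card ≤ k + 1 := NReach.card_le hB
        refine ⟨fun hD => ?_, fun hD => by omega⟩
        by_cases hBk : B.card ≤ k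
        · exact (ih.1 hBk).tail ⟨Move.remove _ x, hD⟩
        · obtain ⟨v, C', hv, rfl, hpre, hR⟩ := ih.2 (by omega)
          by_cases hxv : x = v
          · subst hxv
            rw [Finset.erase_insert hv]; exact hR
          · have hxC : x ∈ C' := by
              rw [Finset.mem_insert] at hx; exact hx.resolve_left hxv
            have heq : (insert v C').erase x = insert v (C'.erase x) :=
              Finset.erase_insert_of_ne (fun h => hxv h.symm)
            rw [heq] at hD ⊢
            by_cases hEx : E x v
            · exact hR.tail ⟨Move.slide _ x v hEx hpre, hD⟩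
            · have h1 : Reach E k ∅ (C'.erase x) :=
                hR.tail ⟨Move.remove _ x, (Finset.card_le_card (Finset.subset_insert _ _)).trans hD⟩
              refine h1.tail ⟨Move.place _ v ?_, hD⟩
              intro u hu
              rw [Finset.mem_erase]
              exact ⟨fun h => hEx (h ▸ hu), hpre u hu⟩
      · rw [Finset.erase_eq_of_notMem hx]; exact ih

/-- Sliding saves exactly one pebble when the target is not a source. -/
theorem ncan_succ_iff {E : V → V → Prop} {t : V} (ht : ∃ u, E u t) (k : ℕ) :
    NCan E t (k + 1) ↔ CanPebble E t k := by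
  constructor
  · rintro ⟨C, hC, htC⟩
    obtain ⟨h1, h2⟩ := slide_inv hC
    have hle := NReach.card_le hC
    by_cases hk : C.card ≤ k
    · exact ⟨C, h1 hk, htC⟩
    · obtain ⟨v, C', hv, rfl, hpre, hR⟩ := h2 (by omega)
      by_cases htC' : t ∈ C'
      · exact ⟨C', hR, htC'⟩
      · have htv : t = v := by
          rw [Finset.mem_insert] at htC; exact htC.resolve_right htC'
        subst htv
        obtain ⟨u, hu⟩ := ht
        have huC : u ∈ C' := hpre u hu
        have hcard : (insert t (C'.erase u)).card ≤ k := by
          have h3 := Finset.card_insert_le t (C'.erase u)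
          have h4 := Finset.card_erase_of_mem huC
          have h5 : C'.card ≤ k := Reach.card_le hR
          have h6 : 0 < C'.card := Finset.card_pos.2 ⟨u, huC⟩
          omega
        exact ⟨_, hR.tail ⟨Move.slide _ u t hu hpre, hcard⟩, Finset.mem_insert_self _ _⟩
  · rintro ⟨C, hC, htC⟩
    exact ⟨C, nreach_of_reach hC, htC⟩

/-! ### The blow-up without sliding -/

/-- Projection of configurations of the blow-up: `v` is pebbled if all its copies are. -/
def proj [Fintype V] {w : ℕ} (C : Finset (Option (V × Fin w))) : Finset V :=
  Finset.univ.filter (fun v => ∀ i : Fin w, some (v, i) ∈ C)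

theorem mem_proj [Fintype V] {w : ℕ} {C : Finset (Option (V × Fin w))} {v : V} :
    v ∈ proj C ↔ ∀ i : Fin w, some (v, i) ∈ C := by
  simp [proj]

theorem card_proj [Fintype V] {w : ℕ} (C : Finset (Option (V × Fin w))) :
    (proj C).card * w ≤ C.card := by
  have : ((proj C) ×ˢ (Finset.univ : Finset (Fin w))).card ≤ C.card := by
    apply Finset.card_le_card_of_injOn (fun p => some p)
    · intro p hp
      rw [Finset.mem_coe, Finset.mem_product] at hp
      exact mem_proj.1 hp.1 p.2
    · intro p _ q _ h
      exact Option.some_injective _ h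
  rw [Finset.card_product, Finset.card_univ, Fintype.card_fin] at this
  exact this

theorem proj_reach [Fintype V] {E : V → V → Prop} {t : V} {w s : ℕ} (hw : 0 < w)
    {C : Finset (Option (V × Fin w))} (h : NReach (Blow E t w) s ∅ C) :
    NReach E (s / w) ∅ (proj C) ∧ (none ∈ C → NCan E t (s / w)) := by
  have hcard : ∀ C : Finset (Option (V × Fin w)), C.card ≤ s → (proj C).card ≤ s / w := by
    intro C hC
    rw [Nat.le_div_iff_mul_le hw]
    exact (card_proj C).trans hC
  induction h with
  | refl =>
    refine ⟨?_, fun h => by simp at h⟩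
    have : proj (∅ : Finset (Option (V × Fin w))) = ∅ := by
      ext v; simp only [mem_proj, Finset.notMem_empty, iff_false, not_forall]
      exact ⟨⟨0, hw⟩, not_false⟩
    rw [this]; exact Relation.ReflTransGen.refl
  | @tail B D hB hBD ih =>
    obtain ⟨hm, hc⟩ := hBD
    cases hm with
    | place x h =>
      cases x with
      | none =>
        have hp : proj (insert none B) = proj B := by
          ext v; simp [mem_proj]
        rw [hp]
        refine ⟨ih.1, fun _ => ⟨proj B, ih.1, ?_⟩⟩
        rw [mem_proj]; intro i
        exact h (some (t, i)) rfl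
      | some a =>
        obtain ⟨v, i⟩ := a
        have hpre : ∀ u, E u v → u ∈ proj B := by
          intro u hu
          rw [mem_proj]; intro j
          exact h (some (u, j)) hu
        refine ⟨?_, fun hn => ih.2 (by simpa using hn)⟩
        by_cases hfull : v ∈ proj (insert (some (v, i)) B)
        · have hp : proj (insert (some (v, i)) B) = insert v (proj B) := by
            ext y
            rw [Finset.mem_insert]
            constructor
            · intro hy
              by_cases hyv : y = v
              · exact Or.inl hyv
              · right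
                rw [mem_proj] at hy ⊢
                intro j
                have := hy j
                rw [Finset.mem_insert] at this
                rcases this with h' | h'
                · exfalso; apply hyv
                  have := Option.some_injective _ h'
                  exact congrArg Prod.fst this
                · exact h'
            · rintro (rfl | hy)
              · exact hfull
              · rw [mem_proj] at hy ⊢
                intro j; exact Finset.mem_insert_of_mem (hy j)
          have hc' := hcard _ hc
          rw [hp] at hc' ⊢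
          exact ih.1.tail ⟨NMove.place _ v hpre, hc'⟩
        · have hp : proj (insert (some (v, i)) B) = proj B := by
            ext y
            constructor
            · intro hy
              have hyv : y ≠ v := fun h => hfull (h ▸ hy)
              rw [mem_proj] at hy ⊢
              intro j
              have := hy j
              rw [Finset.mem_insert] at this
              rcases this with h' | h'
              · exfalso; apply hyv
                have := Option.some_injective _ h'
                exact congrArg Prod.fst this
              · exact h'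
            · intro hy
              rw [mem_proj] at hy ⊢
              intro j; exact Finset.mem_insert_of_mem (hy j)
          rw [hp]; exact ih.1
    | remove x =>
      refine ⟨?_, fun hn => ih.2 (Finset.mem_of_mem_erase hn)⟩
      cases x with
      | none =>
        have hp : proj (B.erase none) = proj B := by
          ext v; simp [mem_proj]
        rw [hp]; exact ih.1
      | some a =>
        obtain ⟨v, i⟩ := a
        have hp : proj (B.erase (some (v, i))) = (proj B).erase v := by
          ext y
          rw [Finset.mem_erase, mem_proj, mem_proj]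
          constructor
          · intro hy
            refine ⟨?_, fun j => Finset.mem_of_mem_erase (hy j)⟩
            rintro rfl
            have := hy i
            simp at this
          · rintro ⟨hyv, hy⟩ j
            rw [Finset.mem_erase]
            refine ⟨?_, hy j⟩
            intro h'
            apply hyv
            have := Option.some_injective _ h'
            exact congrArg Prod.fst this
        have hc' := hcard _ hc
        rw [hp] at hc' ⊢
        exact ih.1.tail ⟨NMove.remove _ v, hc'⟩

/-- The lift of a configuration. -/
def lift (w : ℕ) (C : Finset V) : Finset (Option (V × Fin w)) :=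
  (C ×ˢ (Finset.univ : Finset (Fin w))).map ⟨some, Option.some_injective _⟩

theorem mem_lift {w : ℕ} {C : Finset V} {v : V} {i : Fin w} :
    some (v, i) ∈ lift w C ↔ v ∈ C := by
  simp [lift]

theorem none_notMem_lift {w : ℕ} {C : Finset V} : none ∉ lift w C := by
  simp [lift]

theorem card_lift {w : ℕ} {C : Finset V} : (lift w C).card = C.card * w := by
  simp [lift]

/-- Adding a set of vertices, all of whose predecessors are already there, one by one. -/
theorem add_many {W : Type*} [DecidableEq W] {F : W → W → Prop} {s : ℕ} {C : Finset W}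
    (S : Finset W) (h : ∀ v ∈ S, ∀ u, F u v → u ∈ C) (hs : (C ∪ S).card ≤ s) :
    NReach F s C (C ∪ S) := by
  induction S using Finset.induction_on with
  | empty => rw [Finset.union_empty]; exact Relation.ReflTransGen.refl
  | @insert a S ha ih =>
    have hsub : C ∪ S ⊆ C ∪ insert a S :=
      Finset.union_subset_union_right (Finset.subset_insert _ _)
    have h1 : NReach F s C (C ∪ S) :=
      ih (fun v hv => h v (Finset.mem_insert_of_mem hv)) ((Finset.card_le_card hsub).trans hs)
    have heq : C ∪ insert a S = insert a (C ∪ S) := Finset.union_insert _ _ _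
    rw [heq] at hs ⊢
    refine h1.tail ⟨NMove.place _ a ?_, hs⟩
    intro u hu
    exact Finset.mem_union_left _ (h a (Finset.mem_insert_self _ _) u hu)

theorem remove_many {W : Type*} [DecidableEq W] {F : W → W → Prop} {s : ℕ} {C : Finset W}
    (S : Finset W) (hs : C.card ≤ s) : NReach F s C (C \ S) := by
  induction S using Finset.induction_on with
  | empty => rw [Finset.sdiff_empty]; exact Relation.ReflTransGen.refl
  | @insert a S ha ih =>
    have heq : C \ insert a S = (C \ S).erase a := by
      ext x; simp only [Finset.mem_sdiff, Finset.mem_insert, Finset.mem_erase]; tauto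
    rw [heq]
    refine ih.tail ⟨NMove.remove _ a, ?_⟩
    exact (Finset.card_le_card ((Finset.erase_subset _ _).trans Finset.sdiff_subset)).trans hs

theorem lift_reach {E : V → V → Prop} {t : V} {w K : ℕ} {C : Finset V}
    (h : NReach E K ∅ C) : NReach (Blow E t w) (K * w) ∅ (lift w C) := by
  induction h with
  | refl =>
    have : lift w (∅ : Finset V) = ∅ := by simp [lift]
    rw [this]; exact Relation.ReflTransGen.refl
  | @tail B D hB hBD ih =>
    obtain ⟨hm, hc⟩ := hBD
    have hBK : B.card ≤ K := NReach.card_le hB
    cases hm with
    | place v h =>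
      have heq : lift w (insert v B) = lift w B ∪ lift w {v} := by
        ext x; cases x with
        | none => simp [none_notMem_lift]
        | some a =>
          obtain ⟨y, j⟩ := a
          simp only [Finset.mem_union, mem_lift, Finset.mem_insert, Finset.mem_singleton]
          tauto
      have hcl : (lift w (insert v B)).card ≤ K * w := by
        rw [card_lift]; exact Nat.mul_le_mul_right _ hc
      rw [heq] at hcl ⊢
      refine Relation.ReflTransGen.trans ih (add_many _ ?_ hcl)
      intro x hx y hy
      cases x with
      | none => exact absurd hx none_notMem_lift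
      | some a =>
        obtain ⟨x1, x2⟩ := a
        rw [mem_lift, Finset.mem_singleton] at hx
        subst hx
        cases y with
        | none => exact absurd hy id
        | some b =>
          obtain ⟨y1, y2⟩ := b
          rw [mem_lift]; exact h y1 hy
    | remove v =>
      have heq : lift w (B.erase v) = lift w B \ lift w {v} := by
        ext x; cases x with
        | none => simp [none_notMem_lift]
        | some a =>
          obtain ⟨y, j⟩ := a
          simp only [Finset.mem_sdiff, mem_lift, Finset.mem_erase, Finset.mem_singleton]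
          tauto
      rw [heq]
      refine Relation.ReflTransGen.trans ih (remove_many _ ?_)
      rw [card_lift]; exact Nat.mul_le_mul_right _ hBK

theorem ncan_two_le {E : V → V → Prop} {t : V} (ht : ∃ u, E u t) {K : ℕ}
    (h : NCan E t K) : 2 ≤ K := by
  obtain ⟨C, hC, htC⟩ := h
  have key : ∀ C, NReach E K ∅ C → t ∈ C → 2 ≤ K := by
    intro C hC
    induction hC with
    | refl => intro h; simp at h
    | @tail B D hB hBD ih =>
      intro htD
      by_cases htB : t ∈ B
      · exact ih htB
      · obtain ⟨hm, hc⟩ := hBD
        cases hm with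
        | place v h =>
          have htv : t = v := by
            rw [Finset.mem_insert] at htD; exact htD.resolve_right htB
          subst htv
          obtain ⟨u, hu⟩ := ht
          have huB := h u hu
          rw [Finset.card_insert_of_notMem htB] at hc
          have : 0 < B.card := Finset.card_pos.2 ⟨u, huB⟩
          omega
        | remove v => exact absurd (Finset.mem_of_mem_erase htD) htB
  exact key C hC htC

/-- The exact effect of the blow-up in the game without sliding. -/
theorem ncan_blow_iff [Fintype V] {E : V → V → Prop} {t : V} (ht : ∃ u, E u t) {w : ℕ} (hw : 0 < w) (s : ℕ) :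
    NCan (Blow E t w) none s ↔ NCan E t (s / w) := by
  constructor
  · rintro ⟨C, hC, hn⟩
    exact (proj_reach hw hC).2 hn
  · intro h
    have hK : 2 ≤ s / w := ncan_two_le ht h
    obtain ⟨C, hC, htC⟩ := h
    have h1 : NReach (Blow E t w) (s / w * w) ∅ (lift w C) := lift_reach hC
    have hle : s / w * w ≤ s := Nat.div_mul_le_self s w
    have h1' := h1.mono hle
    have hcC : C.card ≤ s / w := NReach.card_le hC
    have h2 : NReach (Blow E t w) s (lift w C) (lift w C \ lift w (C.erase t)) := by
      apply remove_many
      rw [card_lift]; exact (Nat.mul_le_mul_right _ hcC).trans hle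
    have heq : lift w C \ lift w (C.erase t) = lift w {t} := by
      ext x; cases x with
      | none => simp [none_notMem_lift]
      | some a =>
        obtain ⟨y, j⟩ := a
        simp only [Finset.mem_sdiff, mem_lift, Finset.mem_erase, Finset.mem_singleton]
        constructor
        · rintro ⟨h1, h2⟩; by_contra h3; exact h2 ⟨h3, h1⟩
        · rintro rfl; exact ⟨htC, fun h => h.1 rfl⟩
    rw [heq] at h2
    refine ⟨insert none (lift w {t}), (Relation.ReflTransGen.trans h1' h2).tail ⟨?_, ?_⟩,
      Finset.mem_insert_self _ _⟩
    · apply NMove.place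
      intro u hu
      cases u with
      | none => exact absurd hu id
      | some a =>
        obtain ⟨y, j⟩ := a
        rw [mem_lift, Finset.mem_singleton]; exact hu
    · refine (Finset.card_insert_le _ _).trans ?_
      rw [card_lift, Finset.card_singleton, one_mul]
      have : 2 * w ≤ s / w * w := Nat.mul_le_mul_right _ hK
      omega

/-! ### Acyclic digraphs -/

theorem wf_of_acyclic [Finite V] {E : V → V → Prop} (hac : ∀ v, ¬ Relation.TransGen E v v) :
    WellFounded (Relation.TransGen E) := by
  haveI : IsTrans V (Relation.TransGen E) := ⟨fun _ _ _ => Relation.TransGen.trans⟩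
  haveI : Std.Irrefl (Relation.TransGen E) := ⟨hac⟩
  exact Finite.wellFounded_of_trans_of_irrefl _

theorem wf_of_acyclic' [Finite V] {E : V → V → Prop} (hac : ∀ v, ¬ Relation.TransGen E v v) :
    WellFounded (fun a b => Relation.TransGen E b a) := by
  haveI : IsTrans V (fun a b => Relation.TransGen E b a) := ⟨fun _ _ _ h1 h2 => h2.trans h1⟩
  haveI : Std.Irrefl (fun a b => Relation.TransGen E b a) := ⟨hac⟩
  exact Finite.wellFounded_of_trans_of_irrefl _

/-- The target of a finite acyclic digraph can be pebbled. -/
theorem can_card [Fintype V] {E : V → V → Prop} (hac : ∀ v, ¬ Relation.TransGen E v v) (t : V) :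
    CanPebble E t (Fintype.card V) := by
  have main : ∀ (n : ℕ) (C : Finset V), Cᶜ.card = n → Reach E (Fintype.card V) ∅ C →
      Reach E (Fintype.card V) ∅ Finset.univ := by
    intro n
    induction n with
    | zero =>
      intro C hC h
      have : C = Finset.univ := by
        rw [← Finset.compl_eq_empty_iff]; exact Finset.card_eq_zero.1 hC
      rwa [this] at h
    | succ n ih =>
      intro C hC h
      have hne : {v : V | v ∉ C}.Nonempty := by
        obtain ⟨v, hv⟩ := Finset.card_pos.1 (by omega : 0 < Cᶜ.card)
        exact ⟨v, by simpa using hv⟩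
      obtain ⟨v, hv, hmin⟩ := (wf_of_acyclic hac).has_min _ hne
      have hvC : v ∉ C := hv
      refine ih (insert v C) ?_ (h.tail ⟨Move.place _ v ?_, Finset.card_le_univ _⟩)
      · rw [Finset.compl_insert, Finset.card_erase_of_mem (by simpa using hvC), hC]
        rfl
      · intro u hu
        by_contra huC
        exact hmin u huC (Relation.TransGen.single hu)
  exact ⟨Finset.univ, main _ ∅ rfl Relation.ReflTransGen.refl, Finset.mem_univ t⟩

theorem can_iff [Fintype V] {E : V → V → Prop} (hac : ∀ v, ¬ Relation.TransGen E v v) (t : V)
    (k : ℕ) : CanPebble E t k ↔ Peb E t ≤ k := by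
  have hne : {k | CanPebble E t k}.Nonempty := ⟨_, can_card hac t⟩
  constructor
  · intro h; exact Nat.sInf_le h
  · intro h; exact CanPebble.mono h (Nat.sInf_mem hne)

theorem exists_pred [Fintype V] {E : V → V → Prop} (hac : ∀ v, ¬ Relation.TransGen E v v)
    {t : V} (ht : ∀ v, (∀ x, ¬ E v x) ↔ v = t) (h2 : 2 ≤ Fintype.card V) : ∃ u, E u t := by
  have hne : {v : V | v ≠ t}.Nonempty := by
    have : 1 < Fintype.card V := h2
    obtain ⟨v, hv⟩ := Fintype.exists_ne_of_one_lt_card this t
    exact ⟨v, hv⟩
  obtain ⟨v, hv, hmax⟩ := (wf_of_acyclic' hac).has_min _ hne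
  have hvt : v ≠ t := hv
  have : ¬ (∀ x, ¬ E v x) := fun h => hvt ((ht v).1 h)
  push Not at this
  obtain ⟨x, hx⟩ := this
  by_cases hxt : x = t
  · exact ⟨v, hxt ▸ hx⟩
  · exact absurd (Relation.TransGen.single hx) (hmax x hxt)

theorem blow_acyclic {E : V → V → Prop} (hac : ∀ v, ¬ Relation.TransGen E v v) (t : V) (w : ℕ) :
    ∀ x, ¬ Relation.TransGen (Blow E t w) x x := by
  have key : ∀ x y, Relation.TransGen (Blow E t w) x y →
      ∃ a, x = some a ∧ ∀ b, y = some b → Relation.TransGen E a.1 b.1 := by
    intro x y h
    induction h with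
    | @single y h =>
      cases x with
      | none => exact absurd h id
      | some a =>
        refine ⟨a, rfl, ?_⟩
        rintro b rfl
        exact Relation.TransGen.single h
    | @tail y z _ hyz ih =>
      obtain ⟨a, hxa, ha⟩ := ih
      refine ⟨a, hxa, ?_⟩
      rintro b rfl
      cases y with
      | none => exact absurd hyz id
      | some c => exact (ha c rfl).tail hyz
  intro x hx
  obtain ⟨a, hxa, ha⟩ := key x x hx
  exact hac a.1 (ha a hxa)

theorem blow_sink {E : V → V → Prop} {t : V} (ht : ∀ v, (∀ x, ¬ E v x) ↔ v = t) {w : ℕ} :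
    ∀ x : Option (V × Fin w), (∀ y, ¬ Blow E t w x y) ↔ x = none := by
  intro x
  constructor
  · intro h
    cases x with
    | none => rfl
    | some a =>
      exfalso
      obtain ⟨v, i⟩ := a
      by_cases hv : v = t
      · exact h none hv
      · apply hv
        rw [← ht]
        intro y hy
        exact h (some (y, i)) hy
  · rintro rfl y
    exact fun h => h

/-- The exact amplification formula. -/
theorem peb_blow [Fintype V] {E : V → V → Prop} (hac : ∀ v, ¬ Relation.TransGen E v v)
    {t : V} (ht : ∀ v, (∀ x, ¬ E v x) ↔ v = t) (h2 : 2 ≤ Fintype.card V) {w : ℕ} (hw : 0 < w) :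
    Peb (Blow E t w) none + 1 = w * (Peb E t + 1) := by
  have hpred := exists_pred hac ht h2
  have hpred' : ∃ u, Blow E t w u none := ⟨some (t, ⟨0, hw⟩), rfl⟩
  have hiff : ∀ s, Peb (Blow E t w) none ≤ s ↔ w * (Peb E t + 1) ≤ s + 1 := by
    intro s
    rw [← can_iff (blow_acyclic hac t w), ← ncan_succ_iff hpred', ncan_blow_iff hpred hw]
    constructor
    · intro h
      have h3 := ncan_two_le hpred h
      obtain ⟨K, hK⟩ : ∃ K, (s + 1) / w = K + 1 := ⟨(s + 1) / w - 1, by omega⟩
      rw [hK, ncan_succ_iff hpred, can_iff hac] at h
      have : Peb E t + 1 ≤ (s + 1) / w := by omega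
      rw [Nat.le_div_iff_mul_le hw] at this
      linarith [mul_comm w (Peb E t + 1)]
    · intro h
      have : Peb E t + 1 ≤ (s + 1) / w := by
        rw [Nat.le_div_iff_mul_le hw]; linarith [mul_comm w (Peb E t + 1)]
      obtain ⟨K, hK⟩ : ∃ K, (s + 1) / w = K + 1 := ⟨(s + 1) / w - 1, by omega⟩
      rw [hK, ncan_succ_iff hpred, can_iff hac]
      omega
  have h3 := (hiff (Peb (Blow E t w) none)).1 le_rfl
  have hpos : 0 < w * (Peb E t + 1) := Nat.mul_pos hw (Nat.succ_pos _)
  have h4 := (hiff (w * (Peb E t + 1) - 1)).2 (by omega)
  omega

/-- **Main result.** Let `E` be a finite acyclic digraph with `n ≥ 2` vertices and a unique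
sink `t`, let `0 < ε < 1` and let `w` be a natural number with `w ≥ (2n)^(1/ε)`. The blow-up
`Blow E t w` is an acyclic digraph with `w n + 1` vertices and a unique sink, its black pebbling
number is exactly `w (Peb E t + 1) - 1`, and from every real number `a` that approximates it from
above within an additive error `N^(1-ε)`, where `N = w n + 1` is its number of vertices, the
exact value `Peb E t` is recovered as `⌊(a + 1) / w⌋ - 1`. -/
theorem result [Fintype V] (E : V → V → Prop) (hac : ∀ v, ¬ Relation.TransGen E v v)
    (t : V) (ht : ∀ v, (∀ x, ¬ E v x) ↔ v = t) (h2 : 2 ≤ Fintype.card V)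
    (ε : ℝ) (hε : 0 < ε) (hε1 : ε < 1) (w : ℕ)
    (hw : (2 * (Fintype.card V : ℝ)) ^ (1 / ε) ≤ (w : ℝ)) :
    (∀ x, ¬ Relation.TransGen (Blow E t w) x x) ∧
    (∀ x, (∀ y, ¬ Blow E t w x y) ↔ x = none) ∧
    Fintype.card (Option (V × Fin w)) = w * Fintype.card V + 1 ∧
    Peb (Blow E t w) none + 1 = w * (Peb E t + 1) ∧
    ∀ a : ℝ, (Peb (Blow E t w) none : ℝ) ≤ a →
      a ≤ Peb (Blow E t w) none + (Fintype.card (Option (V × Fin w)) : ℝ) ^ (1 - ε) →
      Peb E t = ⌊(a + 1) / w⌋₊ - 1 := by
  set n : ℝ := (Fintype.card V : ℝ) with hn
  have hn2 : (2 : ℝ) ≤ n := by rw [hn]; exact_mod_cast h2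
  have h2n : (1 : ℝ) < 2 * n := by linarith
  have hwpos' : (0 : ℝ) < w := lt_of_lt_of_le (Real.rpow_pos_of_pos (by linarith) _) hw
  have hwpos : 0 < w := by exact_mod_cast hwpos'
  have hw1 : (1 : ℝ) ≤ w := by exact_mod_cast hwpos
  have hcard : Fintype.card (Option (V × Fin w)) = w * Fintype.card V + 1 := by
    rw [Fintype.card_option, Fintype.card_prod, Fintype.card_fin, mul_comm]
  have hpeb := peb_blow hac ht h2 hwpos
  refine ⟨blow_acyclic hac t w, blow_sink ht, hcard, hpeb, ?_⟩
  intro a ha1 ha2
  -- the additive error is less than `w`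
  have herr : (Fintype.card (Option (V × Fin w)) : ℝ) ^ (1 - ε) < w := by
    rw [hcard]
    push_cast
    rw [← hn]
    have hle : (w : ℝ) * n + 1 ≤ 2 * n * w := by nlinarith
    have h1 : ((w : ℝ) * n + 1) ^ (1 - ε) ≤ (2 * n * w) ^ (1 - ε) :=
      Real.rpow_le_rpow (by positivity) hle (by linarith)
    have h3 : (2 * n * w) ^ (1 - ε) = (2 * n) ^ (1 - ε) * (w : ℝ) ^ (1 - ε) :=
      Real.mul_rpow (by linarith) hwpos'.le
    have h4 : (2 * n) ≤ (w : ℝ) ^ ε := by
      have h5 : ((2 * n) ^ (1 / ε)) ^ ε ≤ (w : ℝ) ^ ε :=
        Real.rpow_le_rpow (Real.rpow_nonneg (by linarith) _) hw hε.le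
      rw [← Real.rpow_mul (by linarith), one_div, inv_mul_cancel₀ hε.ne', Real.rpow_one] at h5
      exact h5
    have h6 : (2 * n) ^ (1 - ε) < 2 * n := by
      calc (2 * n) ^ (1 - ε) < (2 * n) ^ (1 : ℝ) :=
            Real.rpow_lt_rpow_of_exponent_lt h2n (by linarith)
        _ = 2 * n := Real.rpow_one _
    have hwp : 0 < (w : ℝ) ^ (1 - ε) := Real.rpow_pos_of_pos hwpos' _
    calc ((w : ℝ) * n + 1) ^ (1 - ε) ≤ (2 * n) ^ (1 - ε) * (w : ℝ) ^ (1 - ε) := by
          rw [← h3]; exact h1
      _ < (w : ℝ) ^ ε * (w : ℝ) ^ (1 - ε) := by
          apply mul_lt_mul_of_pos_right _ hwp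
          linarith
      _ = w := by
          rw [← Real.rpow_add hwpos']
          simp
  have hpebR : (Peb (Blow E t w) none : ℝ) + 1 = w * ((Peb E t : ℝ) + 1) := by
    exact_mod_cast hpeb
  have hlow : ((Peb E t : ℝ) + 1) ≤ (a + 1) / w := by
    rw [le_div_iff₀ hwpos']; nlinarith
  have hhigh : (a + 1) / w < (Peb E t : ℝ) + 1 + 1 := by
    rw [div_lt_iff₀ hwpos']; nlinarith
  have hfloor : ⌊(a + 1) / (w : ℝ)⌋₊ = Peb E t + 1 := by
    rw [Nat.floor_eq_iff (by linarith [Nat.cast_nonneg (α := ℝ) (Peb E t)])]
    push_cast
    exact ⟨hlow, hhigh⟩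
  rw [hfloor]; rfl

end Pool.Agent.Results.MP_ecb870_lc.AdditiveBlowup
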