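import Pool.Agent.PebHard.Final
import Pool.Agent.Lib.PolyTime.FromTM2

/-!
# A gap-preserving reduction from vertex cover to the black pebbling number

There is a polynomial-time function which maps (the adjacency matrix of) every simple graph `G` to
(the adjacency matrix of) an acyclic digraph with one sink whose black pebbling number is exactly
`8 n + 17 m + 4 + vc G`, where `n`, `m`, `vc G` are the numbers of vertices and edges and the vertex
cover number of `G`.  Hence a polynomial-time approximation of the black pebbling number within the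
factor `1 + ε` yields a polynomial-time approximation of the vertex cover number within the factor
`1 + 38 D ε` on graphs without isolated vertices and of maximal degree at most `D`; for cubic graphs
the latter is NP-hard for some `ε > 0` (a consequence of the PCP theorem), so it is NP-hard to
approximate the black pebbling number within some constant factor larger than `1`.
-/

set_option autoImplicit false

open Pool.Agent.PebAlg Pool.Agent.PebHard

namespace Pool.Agent.Results.MP_ecb870_lc.ConstantFactorHardness

/-- the digraph `E` on `Fin n` is acyclic and `t` is its only sink -/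
def IsDag {n : ℕ} (E : Fin n → Fin n → Bool) (t : Fin n) : Prop :=
  (∀ v, ¬ Relation.TransGen (fun a b => E a b = true) v v) ∧
    (∀ v, E t v = false) ∧ ∀ s, (∀ v, E s v = false) → s = t

/-- `f` is computed by a Turing machine in polynomial time -/
def PTime (f : List Bool → List Bool) : Prop :=
  Nonempty (Turing.TM2ComputableInPolyTime (fun w : List Bool => w) (fun w : List Bool => w) f)

/-- the adjacency matrix of a graph on `Fin n`, row by row, as a bit string -/
def graphCode {n : ℕ} (G : SimpleGraph (Fin n)) [DecidableRel G.Adj] : List Bool :=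
  code (fun i j => decide (G.Adj i j))

theorem result :
    (∃ f : List Bool → List Bool, PTime f ∧
      ∀ (n : ℕ) (G : SimpleGraph (Fin n)) [DecidableRel G.Adj],
        ∃ (M : ℕ) (E : Fin M → Fin M → Bool) (t : Fin M),
          f (graphCode G) = code E ∧ IsDag E t ∧
            ((Peb (fun a b => E a b = true) t : ℕ) : ℕ∞) =
              8 * n + 17 * G.edgeFinset.card + 4 + G.vertexCoverNum) ∧
    ∀ ε : ℝ, 0 ≤ ε → ∀ A : List Bool → ℕ, PTime (fun w => List.replicate (A w) true) →
      (∀ (M : ℕ) (E : Fin M → Fin M → Bool) (t : Fin M), IsDag E t →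
        Peb (fun a b => E a b = true) t ≤ A (code E) ∧
          (A (code E) : ℝ) ≤ (1 + ε) * Peb (fun a b => E a b = true) t) →
      ∃ B : List Bool → ℕ, PTime (fun w => List.replicate (B w) true) ∧
        ∀ (n D : ℕ) (G : SimpleGraph (Fin n)) [DecidableRel G.Adj], 1 ≤ n →
          (∀ v, 1 ≤ G.degree v ∧ G.degree v ≤ D) →
            G.vertexCoverNum ≤ (B (graphCode G) : ℕ∞) ∧
            (B (graphCode G) : ℝ) ≤ (1 + 38 * D * ε) * (G.vertexCoverNum.toNat : ℝ) := by
  constructor
  · refine ⟨red, Pool.Agent.Lib.PT.ToTM2.polyTime_toTM2 _ polyTime_red, ?_⟩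
    intro n G _
    obtain ⟨M, E, t, h1, h2, h3, h4, h5⟩ := red_value G
    exact ⟨M, E, t, h1, ⟨h2, h3, h4⟩, h5⟩
  · intro ε hε A hA happ
    refine ⟨fun w => A (red w) - (8 * side w + 17 * (edges w).length + 4), ?_, ?_⟩
    · have hA' : Pool.Agent.Lib.PT.PolyTime (fun w : List Bool => List.replicate (A w) true) :=
        (Pool.Agent.Lib.PT.polyTime_iff_TM2 _).2 hA
      have h1 : Pool.Agent.Lib.PT.PolyTime (fun w : List Bool => A (red w)) :=
        (hA'.comp polyTime_red).length.congr (fun w => by simp)
      have h2 : Pool.Agent.Lib.PT.PolyTime (fun w : List Bool =>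
          8 * side w + 17 * (edges w).length + 4) :=
        (((Pool.Agent.Lib.PT.PolyTime.const 8).mul
          (polyTime_side Pool.Agent.Lib.PT.PolyTime.id)).add
          ((Pool.Agent.Lib.PT.PolyTime.const 17).mul
            (polyTime_edges Pool.Agent.Lib.PT.PolyTime.id).length)).add
          (Pool.Agent.Lib.PT.PolyTime.const 4)
      exact (Pool.Agent.Lib.PT.polyTime_iff_TM2 _).1
        ((h1.sub h2).replicate (Pool.Agent.Lib.PT.PolyTime.const true))
    · intro n D G _ hn hD
      obtain ⟨M, E, t, h1, h2, h3, h4, h5⟩ := red_value G
      obtain ⟨k, hk⟩ : ∃ k : ℕ, G.vertexCoverNum = (k : ℕ∞) := by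
        obtain ⟨S, _, _, hS⟩ := exists_vertexCover G
        exact ⟨_, hS⟩
      obtain ⟨b1, b2, b3, b4⟩ := bounded_degree G D hD hn k hk
      obtain ⟨a1, a2⟩ := happ M E t ⟨h2, h3, h4⟩
      have hcode : red (graphCode G) = code E := h1
      have hside : side (graphCode G) = n := side_gcode G
      have hlen : (edges (graphCode G)).length = G.edgeFinset.card := length_edges G
      set P := Peb (fun a b => E a b = true) t with hP
      have hPk : P = 8 * n + 17 * G.edgeFinset.card + 4 + k := by
        rw [hk] at h5
        exact_mod_cast h5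
      have hPle : P ≤ 38 * (D * k) := by
        have h6 : k ≤ D * k := Nat.le_mul_of_pos_left k b4
        omega
      beta_reduce
      rw [hcode, hside, hlen, hk]
      constructor
      · have : k ≤ A (code E) - (8 * n + 17 * G.edgeFinset.card + 4) := by omega
        exact_mod_cast this
      · have h7 : 8 * n + 17 * G.edgeFinset.card + 4 ≤ A (code E) := by omega
        rw [Nat.cast_sub h7, ENat.toNat_natCast]
        have h8 : (P : ℝ) = ((8 * n + 17 * G.edgeFinset.card + 4 : ℕ) : ℝ) + k := by
          rw [hPk]; push_cast; ring
        have h9 : (P : ℝ) ≤ 38 * (D * k) := by exact_mod_cast hPle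
        have h10 : ε * P ≤ ε * (38 * (D * k)) := mul_le_mul_of_nonneg_left h9 hε
        nlinarith [a2, h8, h10]

end Pool.Agent.Results.MP_ecb870_lc.ConstantFactorHardness
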